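import Mathlib

/-! Integer coefficient lists (constant term first) as real polynomials, and sign variations. -/

set_option autoImplicit false

open Polynomial

namespace Pool.Agent.Helper46_CZDS

/-- sum of two coefficient lists -/
def addL : List ℤ → List ℤ → List ℤ
  | [], b => b
  | x :: a, [] => x :: a
  | x :: a, y :: b => (x + y) :: addL a b

/-- scalar multiple of a coefficient list -/
def smulL (c : ℤ) : List ℤ → List ℤ
  | [] => []
  | x :: a => (c * x) :: smulL c a

/-- product of two coefficient lists -/
def mulL : List ℤ → List ℤ → List ℤ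
  | [], _ => []
  | x :: a, b => addL (smulL x b) (0 :: mulL a b)

/-- power of a coefficient list -/
def powL (a : List ℤ) : ℕ → List ℤ
  | 0 => [1]
  | n + 1 => mulL a (powL a n)

/-- the real polynomial with the given integer coefficient list, constant term first -/
noncomputable def toPoly : List ℤ → ℝ[X]
  | [] => 0
  | a :: l => C (a : ℝ) + X * toPoly l

@[simp] lemma toPoly_nil : toPoly [] = 0 := rfl

@[simp] lemma toPoly_cons (a : ℤ) (l : List ℤ) : toPoly (a :: l) = C (a : ℝ) + X * toPoly l := rfl

lemma toPoly_addL (a b : List ℤ) : toPoly (addL a b) = toPoly a + toPoly b := by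
  induction a generalizing b with
  | nil => simp [addL]
  | cons x a ih =>
    cases b with
    | nil => simp [addL]
    | cons y b =>
      simp only [addL, toPoly_cons, ih, Int.cast_add, C_add]
      ring

lemma toPoly_smulL (c : ℤ) (a : List ℤ) : toPoly (smulL c a) = C (c : ℝ) * toPoly a := by
  induction a with
  | nil => simp [smulL]
  | cons x a ih =>
    simp only [smulL, toPoly_cons, ih, Int.cast_mul, C_mul]
    ring

lemma toPoly_mulL (a b : List ℤ) : toPoly (mulL a b) = toPoly a * toPoly b := by
  induction a generalizing b with
  | nil => simp [mulL]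
  | cons x a ih =>
    simp only [mulL, toPoly_addL, toPoly_smulL, toPoly_cons, ih, Int.cast_zero, C_0]
    ring

lemma toPoly_powL (a : List ℤ) (n : ℕ) : toPoly (powL a n) = toPoly a ^ n := by
  induction n with
  | zero => simp [powL]
  | succ n ih => rw [powL, toPoly_mulL, ih, pow_succ']

lemma coeff_toPoly (l : List ℤ) (k : ℕ) : (toPoly l).coeff k = ((l.getD k 0 : ℤ) : ℝ) := by
  induction l generalizing k with
  | nil => simp
  | cons a l ih =>
    cases k with
    | zero => simp
    | succ k =>
      rw [toPoly_cons, coeff_add, coeff_C_succ, coeff_X_mul, ih, zero_add, List.getD_cons_succ]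

lemma natDegree_toPoly {l : List ℤ} (d : ℕ) (hlen : l.length = d + 1) (hlast : l.getD d 0 ≠ 0) :
    (toPoly l).natDegree = d := by
  apply le_antisymm
  · rw [natDegree_le_iff_coeff_eq_zero]
    intro N hN
    rw [coeff_toPoly, List.getD_eq_default _ _ (by omega)]
    simp
  · apply le_natDegree_of_ne_zero
    rw [coeff_toPoly]
    exact_mod_cast hlast

/-- the sign of an integer -/
def sgn (z : ℤ) : SignType := if 0 < z then 1 else if z < 0 then -1 else 0

/-- number of sign variations of an integer list -/
def sv (l : List ℤ) : ℕ :=
  (((l.map sgn).filter (· ≠ 0)).destutter (· ≠ ·)).length - 1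

lemma coeffList_toPoly {l : List ℤ} (d : ℕ) (hlen : l.length = d + 1) (hlast : l.getD d 0 ≠ 0) :
    (toPoly l).coeffList = l.reverse.map (fun z : ℤ => (z : ℝ)) := by
  have hnd := natDegree_toPoly d hlen hlast
  have hne : toPoly l ≠ 0 := by
    intro h
    have := coeff_toPoly l d
    rw [h, coeff_zero] at this
    exact hlast (by exact_mod_cast this.symm)
  have hdeg : (toPoly l).degree.succ = d + 1 := by
    rw [← hnd]; exact withBotSucc_degree_eq_natDegree_add_one hne
  rw [coeffList, hdeg, List.map_reverse, List.map_reverse]
  congr 1
  apply List.ext_getElem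
  · simp [hlen]
  · intro i h1 h2
    simp only [List.getElem_map, List.getElem_range]
    rw [coeff_toPoly]
    congr 1
    simp at h1 h2
    exact List.getD_eq_getElem _ _ h2

lemma sign_intCast (z : ℤ) : SignType.sign (z : ℝ) = sgn z := by
  unfold sgn
  rcases lt_trichotomy z 0 with h | h | h
  · rw [sign_neg (by exact_mod_cast h), if_neg (by omega), if_pos h]
  · subst h; simp
  · rw [sign_pos (by exact_mod_cast h), if_pos h]

lemma signVariations_toPoly {l : List ℤ} (d : ℕ) (hlen : l.length = d + 1)
    (hlast : l.getD d 0 ≠ 0) : (toPoly l).signVariations = sv l.reverse := by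
  unfold signVariations sv
  rw [coeffList_toPoly d hlen hlast, List.map_map]
  have : (SignType.sign ∘ fun z : ℤ => (z : ℝ)) = (fun z : ℤ => sgn z) := by
    funext z; exact sign_intCast z
  rw [this]

/-- the entries of the list alternate strictly in sign, the first being positive if `s` is true
and negative otherwise -/
def alt : Bool → List ℤ → Bool
  | _, [] => true
  | s, a :: l => (if s then decide (0 < a) else decide (a < 0)) && alt (!s) l

lemma alt_eval (l : List ℤ) : ∀ x : ℝ, x ≤ 0 →
    (alt true l = true → 0 ≤ (toPoly l).eval x) ∧ (alt false l = true → (toPoly l).eval x ≤ 0) := by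
  induction l with
  | nil => intro x hx; simp
  | cons a l ih =>
    intro x hx
    constructor
    · intro h
      simp only [alt, if_true, Bool.and_eq_true, decide_eq_true_eq, Bool.not_true] at h
      have h2 := (ih x hx).2 h.2
      have ha : (0 : ℝ) < a := by exact_mod_cast h.1
      rw [toPoly_cons, eval_add, eval_C, eval_mul, eval_X]
      nlinarith
    · intro h
      simp only [alt, Bool.false_eq_true, if_false, Bool.and_eq_true, decide_eq_true_eq,
        Bool.not_false] at h
      have h2 := (ih x hx).1 h.2
      have ha : (a : ℝ) < 0 := by exact_mod_cast h.1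
      rw [toPoly_cons, eval_add, eval_C, eval_mul, eval_X]
      nlinarith

lemma alt_eval_pos (a : ℤ) (l : List ℤ) (h : alt true (a :: l) = true) (x : ℝ) (hx : x ≤ 0) :
    0 < (toPoly (a :: l)).eval x := by
  simp only [alt, if_true, Bool.and_eq_true, decide_eq_true_eq, Bool.not_true] at h
  have h2 := (alt_eval l x hx).2 h.2
  have ha : (0 : ℝ) < a := by exact_mod_cast h.1
  rw [toPoly_cons, eval_add, eval_C, eval_mul, eval_X]
  nlinarith

/-- Descartes' rule with a multiplier: if `f` has alternating coefficients and `f * g` has `s` sign
variations, then `f` has at most `s` real roots, counted with multiplicity. -/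
lemma card_roots_le {f g : List ℤ} (d s : ℕ) (hf : alt true f = true) (hf0 : f ≠ [])
    (hlen : (mulL f g).length = d + 1) (hlast : (mulL f g).getD d 0 ≠ 0)
    (hs : sv (mulL f g).reverse ≤ s) : (toPoly f).roots.card ≤ s := by
  have hne : toPoly f * toPoly g ≠ 0 := by
    rw [← toPoly_mulL]
    intro h
    have := coeff_toPoly (mulL f g) d
    rw [h, coeff_zero] at this
    exact hlast (by exact_mod_cast this.symm)
  have hpos : ∀ x ∈ (toPoly f).roots, 0 < x := by
    intro x hx
    by_contra hcon
    have : 0 < (toPoly f).eval x := by
      obtain ⟨a, l, rfl⟩ := List.exists_cons_of_ne_nil hf0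
      exact alt_eval_pos a l hf x (not_lt.mp hcon)
    have hr := (mem_roots'.mp hx).2
    rw [IsRoot.def] at hr
    linarith
  have h1 : (toPoly f).roots.countP (0 < ·) = (toPoly f).roots.card := by
    rw [Multiset.countP_eq_card]
    exact hpos
  have h2 : (toPoly f).roots.countP (0 < ·) ≤ (toPoly (mulL f g)).roots.countP (0 < ·) := by
    rw [toPoly_mulL, roots_mul hne, Multiset.countP_add]
    omega
  have h3 := roots_countP_pos_le_signVariations (toPoly (mulL f g))
  rw [signVariations_toPoly d hlen hlast] at h3
  omega

end Pool.Agent.Helper46_CZDS
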